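import Pool.Agent.T501Q.Glue

/-! # The queens graph is n-colourable for almost all n -/

set_option autoImplicit false

namespace Pool.Agent.Results.MP_5f6f90_co.AlmostAll

open Filter Topology

open Classical in
/-- The number of `n < N` for which the `n × n` queens graph is not `n`-colourable is `o(N)`. -/
theorem result :
    Tendsto (fun N : ℕ => (((Finset.range N).filter (fun n : ℕ =>
      ¬ (SimpleGraph.fromRel (fun p q : Fin n × Fin n =>
        p.1 = q.1 ∨ p.2 = q.2 ∨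
        ((p.1 : ℕ) : ℤ) - ((q.1 : ℕ) : ℤ) = ((p.2 : ℕ) : ℤ) - ((q.2 : ℕ) : ℤ) ∨
        ((p.1 : ℕ) : ℤ) - ((q.1 : ℕ) : ℤ) = ((q.2 : ℕ) : ℤ) - ((p.2 : ℕ) : ℤ))).Colorable
          n)).card : ℝ) / (N : ℝ)) atTop (𝓝 0) := by
  have h := Pool.Agent.T501Q.density_SQ
  refine h.congr ?_
  intro N
  congr 3
  ext n
  simp only [Finset.mem_filter]
  rw [Pool.Agent.T501Q.SQ_iff n]
  rfl

end Pool.Agent.Results.MP_5f6f90_co.AlmostAll
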