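import Pool.Agent.T501Q.Glue

/-! # Explicit infinite families of n-colourable queens graphs -/

set_option autoImplicit false

namespace Pool.Agent.Results.MP_5f6f90_co.Families

/-- For `K = 13` and `K = 16`, every `m` coprime to `210` and every `u` coprime to `6`, the `n × n` queens graph with
`n = (K m + 1) u` is `n`-colourable. -/
theorem result (K m u : ℕ) (hK : K = 13 ∨ K = 16) (hm : Nat.Coprime m 210)
    (hu : Nat.Coprime u 6) :
    (SimpleGraph.fromRel (fun p q : Fin ((K * m + 1) * u) × Fin ((K * m + 1) * u) =>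
        p.1 = q.1 ∨ p.2 = q.2 ∨
        ((p.1 : ℕ) : ℤ) - ((q.1 : ℕ) : ℤ) = ((p.2 : ℕ) : ℤ) - ((q.2 : ℕ) : ℤ) ∨
        ((p.1 : ℕ) : ℤ) - ((q.1 : ℕ) : ℤ) = ((q.2 : ℕ) : ℤ) - ((p.2 : ℕ) : ℤ))).Colorable
          ((K * m + 1) * u) := by
  have h : Pool.Agent.T501Q.SQ ((K * m + 1) * u) := by
    apply Pool.Agent.T501Q.SQ_mul _ _ _ hu
    rcases hK with rfl | rfl
    · exact Pool.Agent.T501Q.SQ_13 m hm
    · exact Pool.Agent.T501Q.SQ_16 m hm
  exact (Pool.Agent.T501Q.SQ_iff _).1 h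

end Pool.Agent.Results.MP_5f6f90_co.Families
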